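import Pool.Agent.Y563.BC.Core

set_option autoImplicit false

/-! Boolean combinations of `Σ⁰_n` sets, `n ≥ 3`. -/

namespace Pool.Agent.Y563.BC

open Pool.Agent.Helper344.Coh1 Pool.Agent.Helper344.Coh2 Pool.Agent.Helper344.Coh3
open Pool.Agent.Results.MP_c357a0_lc.NoPiNCohesive

lemma approx_inter {n : ℕ} {S T : Set ℕ} (hS : Approx n S) (hT : Approx n T) :
    Approx n (S ∩ T) := by
  obtain ⟨g, hg, h1⟩ := hS
  obtain ⟨h, hh, h2⟩ := hT
  refine ⟨fun l x => g l x && h l x, (Primrec.and.to_comp).comp hg hh, ?_⟩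
  intro x
  refine ((h1 x).and (h2 x)).mono ?_
  rintro l ⟨h3, h4⟩
  rw [Bool.and_eq_true, h3, h4]
  rfl

lemma approx_comp {n : ℕ} {S : Set ℕ} (hS : Approx n S) (f : ℕ → ℕ) (hf : Computable f) :
    Approx n {x | f x ∈ S} := by
  obtain ⟨g, hg, h1⟩ := hS
  refine ⟨fun l x => g l (f x), hg.comp Computable.fst (hf.comp Computable.snd), ?_⟩
  intro x
  exact h1 (f x)

lemma approx_univ (n : ℕ) : Approx n (Set.univ : Set ℕ) :=
  ⟨fun _ _ => true, Computable.const true, fun _ => IterLim.of_forall (fun _ => by simp)⟩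

/-- `∀`-sets over approximable sets -/
def PiA (n : ℕ) (S : Set ℕ) : Prop := ∃ T, Approx n T ∧ ∀ x, x ∈ S ↔ ∀ k, Nat.pair x k ∈ T

/-- `∃`-sets over approximable sets -/
def SgA (n : ℕ) (S : Set ℕ) : Prop := ∃ R, Approx n R ∧ ∀ x, x ∈ S ↔ ∃ k, Nat.pair x k ∈ R

lemma piA_univ (n : ℕ) : PiA n Set.univ := ⟨Set.univ, approx_univ n, fun x => by simp⟩

lemma sgA_univ (n : ℕ) : SgA n Set.univ := ⟨Set.univ, approx_univ n, fun x => by simp⟩

lemma PiA.inter {n : ℕ} {S T : Set ℕ} (hS : PiA n S) (hT : PiA n T) : PiA n (S ∩ T) := by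
  obtain ⟨S', h1, h2⟩ := hS
  obtain ⟨T', h3, h4⟩ := hT
  refine ⟨S' ∩ T', approx_inter h1 h3, fun x => ?_⟩
  rw [Set.mem_inter_iff, h2, h4]
  constructor
  · rintro ⟨h5, h6⟩ k
    exact ⟨h5 k, h6 k⟩
  · intro h
    exact ⟨fun k => (h k).1, fun k => (h k).2⟩

lemma SgA.inter {n : ℕ} {S T : Set ℕ} (hS : SgA n S) (hT : SgA n T) : SgA n (S ∩ T) := by
  obtain ⟨S', h1, h2⟩ := hS
  obtain ⟨T', h3, h4⟩ := hT
  have c1 : Computable (fun z : ℕ => Nat.pair z.unpair.1 z.unpair.2.unpair.1) :=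
    (Primrec₂.natPair.to_comp).comp (Computable.fst.comp Computable.unpair)
      (Computable.fst.comp (Computable.unpair.comp (Computable.snd.comp Computable.unpair)))
  have c2 : Computable (fun z : ℕ => Nat.pair z.unpair.1 z.unpair.2.unpair.2) :=
    (Primrec₂.natPair.to_comp).comp (Computable.fst.comp Computable.unpair)
      (Computable.snd.comp (Computable.unpair.comp (Computable.snd.comp Computable.unpair)))
  refine ⟨_, approx_inter (approx_comp h1 _ c1) (approx_comp h3 _ c2), fun x => ?_⟩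
  rw [Set.mem_inter_iff, h2, h4]
  constructor
  · rintro ⟨⟨i, hi⟩, ⟨j, hj⟩⟩
    refine ⟨Nat.pair i j, ?_, ?_⟩
    · simpa using hi
    · simpa using hj
  · rintro ⟨k, hk1, hk2⟩
    refine ⟨⟨k.unpair.1, ?_⟩, ⟨k.unpair.2, ?_⟩⟩
    · simpa using hk1
    · simpa using hk2

lemma PiA.compl {n : ℕ} {S : Set ℕ} (hS : PiA n S) : SgA n Sᶜ := by
  obtain ⟨T, h1, h2⟩ := hS
  refine ⟨Tᶜ, approx_compl n T h1, fun x => ?_⟩
  rw [Set.mem_compl_iff, h2]
  push Not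
  rfl

lemma SgA.compl {n : ℕ} {S : Set ℕ} (hS : SgA n S) : PiA n Sᶜ := by
  obtain ⟨T, h1, h2⟩ := hS
  refine ⟨Tᶜ, approx_compl n T h1, fun x => ?_⟩
  rw [Set.mem_compl_iff, h2]
  push Not
  rfl

/-- finite unions of intersections of a `∀`-set and an `∃`-set -/
def DN (n : ℕ) (S : Set ℕ) : Prop :=
  ∃ L : List (Set ℕ × Set ℕ), (∀ p ∈ L, PiA n p.1 ∧ SgA n p.2) ∧
    ∀ x, x ∈ S ↔ ∃ p ∈ L, x ∈ p.1 ∧ x ∈ p.2

lemma DN.union {n : ℕ} {S T : Set ℕ} (hS : DN n S) (hT : DN n T) : DN n (S ∪ T) := by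
  obtain ⟨L, h1, h2⟩ := hS
  obtain ⟨K, h3, h4⟩ := hT
  refine ⟨L ++ K, ?_, ?_⟩
  · intro p hp
    rcases List.mem_append.1 hp with h | h
    · exact h1 p h
    · exact h3 p h
  · intro x
    rw [Set.mem_union, h2, h4]
    constructor
    · rintro (⟨p, hp, hx⟩ | ⟨p, hp, hx⟩)
      · exact ⟨p, List.mem_append_left _ hp, hx⟩
      · exact ⟨p, List.mem_append_right _ hp, hx⟩
    · rintro ⟨p, hp, hx⟩
      rcases List.mem_append.1 hp with h | h
      · exact Or.inl ⟨p, h, hx⟩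
      · exact Or.inr ⟨p, h, hx⟩

lemma DN.inter {n : ℕ} {S T : Set ℕ} (hS : DN n S) (hT : DN n T) : DN n (S ∩ T) := by
  obtain ⟨L, h1, h2⟩ := hS
  obtain ⟨K, h3, h4⟩ := hT
  refine ⟨L.flatMap (fun p => K.map (fun q => (p.1 ∩ q.1, p.2 ∩ q.2))), ?_, ?_⟩
  · intro p hp
    obtain ⟨a, ha, hp⟩ := List.mem_flatMap.1 hp
    obtain ⟨b, hb, rfl⟩ := List.mem_map.1 hp
    exact ⟨(h1 a ha).1.inter (h3 b hb).1, (h1 a ha).2.inter (h3 b hb).2⟩
  · intro x
    rw [Set.mem_inter_iff, h2, h4]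
    constructor
    · rintro ⟨⟨p, hp, hx1, hx2⟩, ⟨q, hq, hy1, hy2⟩⟩
      exact ⟨(p.1 ∩ q.1, p.2 ∩ q.2), List.mem_flatMap.2 ⟨p, hp, List.mem_map.2 ⟨q, hq, rfl⟩⟩,
        ⟨hx1, hy1⟩, ⟨hx2, hy2⟩⟩
    · rintro ⟨r, hr, hx⟩
      obtain ⟨a, ha, hp⟩ := List.mem_flatMap.1 hr
      obtain ⟨b, hb, rfl⟩ := List.mem_map.1 hp
      exact ⟨⟨a, ha, hx.1.1, hx.2.1⟩, ⟨b, hb, hx.1.2, hx.2.2⟩⟩

lemma dn_piA {n : ℕ} {S : Set ℕ} (hS : PiA n S) : DN n S :=
  ⟨[(S, Set.univ)], by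
    intro p hp
    rw [List.mem_singleton] at hp
    subst hp
    exact ⟨hS, sgA_univ n⟩, fun x => by simp⟩

lemma dn_sgA {n : ℕ} {S : Set ℕ} (hS : SgA n S) : DN n S :=
  ⟨[(Set.univ, S)], by
    intro p hp
    rw [List.mem_singleton] at hp
    subst hp
    exact ⟨piA_univ n, hS⟩, fun x => by simp⟩

lemma dn_compl_list {n : ℕ} : ∀ (L : List (Set ℕ × Set ℕ)),
    (∀ p ∈ L, PiA n p.1 ∧ SgA n p.2) → DN n {x | ∃ p ∈ L, x ∈ p.1 ∧ x ∈ p.2}ᶜ := by
  intro L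
  induction L with
  | nil =>
    intro _
    have h : {x : ℕ | ∃ p ∈ ([] : List (Set ℕ × Set ℕ)), x ∈ p.1 ∧ x ∈ p.2}ᶜ = Set.univ := by
      ext x; simp
    rw [h]
    exact dn_piA (piA_univ n)
  | cons p L ih =>
    intro h
    have h1 := h p (by simp)
    have h2 := ih (fun q hq => h q (by simp [hq]))
    have h3 : {x : ℕ | ∃ q ∈ p :: L, x ∈ q.1 ∧ x ∈ q.2}ᶜ =
        (p.1ᶜ ∪ p.2ᶜ) ∩ {x | ∃ q ∈ L, x ∈ q.1 ∧ x ∈ q.2}ᶜ := by
      ext x
      simp only [Set.mem_compl_iff, Set.mem_ofPred_eq, List.mem_cons, exists_eq_or_imp,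
        Set.mem_inter_iff, Set.mem_union]
      rw [not_or, not_and_or]
    rw [h3]
    exact ((dn_sgA h1.1.compl).union (dn_piA h1.2.compl)).inter h2

lemma DN.compl {n : ℕ} {S : Set ℕ} (hS : DN n S) : DN n Sᶜ := by
  obtain ⟨L, h1, h2⟩ := hS
  have h : S = {x | ∃ p ∈ L, x ∈ p.1 ∧ x ∈ p.2} := by
    ext x
    exact h2 x
  rw [h]
  exact dn_compl_list L h1

/-- The Boolean combinations of `Σ⁰_n` sets of natural numbers: the least class that contains the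
`Σ⁰_n` sets and is closed under complements and under unions of two sets. -/
inductive BoolSigma (n : ℕ) : Set ℕ → Prop
  | sigma (S : Set ℕ) : IsSigma n S → BoolSigma n S
  | compl (S : Set ℕ) : BoolSigma n S → BoolSigma n Sᶜ
  | union (S T : Set ℕ) : BoolSigma n S → BoolSigma n T → BoolSigma n (S ∪ T)

lemma sgA_of_sigma {n : ℕ} {S : Set ℕ} (h : IsSigma (n + 1) S) : SgA n S := by
  rw [IsSigma] at h
  obtain ⟨T, hT, hS⟩ := h
  exact ⟨T, (approx_all n T).2 hT, hS⟩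

lemma dn_of_bool {n : ℕ} {S : Set ℕ} (h : BoolSigma (n + 1) S) : DN n S := by
  induction h with
  | sigma S h => exact dn_sgA (sgA_of_sigma h)
  | compl S _ ih => exact ih.compl
  | union S T _ _ ih1 ih2 => exact ih1.union ih2

lemma compl_classes (n : ℕ) : ∀ S : Set ℕ, (IsSigma n S → IsPi n Sᶜ) ∧
    (IsPi n S → IsSigma n Sᶜ) := by
  induction n with
  | zero =>
    intro S
    refine ⟨fun h => ?_, fun h => ?_⟩
    · rw [IsSigma] at h
      rw [IsPi]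
      exact ComputablePred.not h
    · rw [IsPi] at h
      rw [IsSigma]
      exact ComputablePred.not h
  | succ n ih =>
    intro S
    refine ⟨fun h => ?_, fun h => ?_⟩
    · rw [IsSigma] at h
      obtain ⟨T, hT, hS⟩ := h
      rw [IsPi]
      refine ⟨Tᶜ, (ih T).2 hT, fun x => ?_⟩
      rw [Set.mem_compl_iff, hS]
      push Not
      rfl
    · rw [IsPi] at h
      obtain ⟨T, hT, hS⟩ := h
      rw [IsSigma]
      refine ⟨Tᶜ, (ih T).1 hT, fun x => ?_⟩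
      rw [Set.mem_compl_iff, hS]
      push Not
      rfl

lemma bool_of_pi {n : ℕ} {S : Set ℕ} (h : IsPi n S) : BoolSigma n S := by
  have h1 := BoolSigma.compl _ (BoolSigma.sigma _ ((compl_classes n S).2 h))
  rwa [compl_compl] at h1

lemma almost_mono {n : ℕ} {A B : Set ℕ} {C : Set (Finset ℕ)} (hBA : B ⊆ A)
    (h : AlmostHomogeneous n A C) : AlmostHomogeneous n B C := by
  obtain ⟨F, hF⟩ := h
  refine ⟨F, ?_⟩
  have hsub : B \ (F : Set ℕ) ⊆ A \ (F : Set ℕ) := fun x hx => ⟨hBA hx.1, hx.2⟩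
  rcases hF with h | h
  · exact Or.inl (fun s hs hsB => h s hs (hsB.trans hsub))
  · exact Or.inr (fun s hs hsB => h s hs (hsB.trans hsub))

/-- An infinite Boolean combination of `Σ⁰_n` sets, `n ≥ 3`, is not almost homogeneous for some
computable partition of exponent `n`. -/
theorem bool_main (n : ℕ) (hn : 3 ≤ n) (A : Set ℕ) (hinf : A.Infinite) (hA : BoolSigma n A) :
    ∃ C, IsCompPartition n C ∧ ¬ AlmostHomogeneous n A C := by
  obtain ⟨m, rfl⟩ : ∃ m, n = m + 3 := ⟨n - 3, by omega⟩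
  obtain ⟨L, h1, h2⟩ := dn_of_bool (n := m + 2) hA
  have h3 : ∃ p ∈ L, (p.1 ∩ p.2).Infinite := by
    by_contra hcon
    push Not at hcon
    apply hinf
    have h4 : A ⊆ ⋃ p ∈ L.toFinset.attach, (p.1.1 ∩ p.1.2) := by
      intro x hx
      obtain ⟨p, hp, hx1, hx2⟩ := (h2 x).1 hx
      simp only [Set.mem_iUnion]
      exact ⟨⟨p, List.mem_toFinset.2 hp⟩, by simp, hx1, hx2⟩
    refine Set.Finite.subset ?_ h4
    apply Set.Finite.biUnion (Finset.finite_toSet _)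
    intro p _
    have := hcon p.1 (List.mem_toFinset.1 p.2)
    simpa using this
  obtain ⟨p, hp, hpinf⟩ := h3
  obtain ⟨⟨T, hT, hpT⟩, ⟨R, hR, hpR⟩⟩ := h1 p hp
  obtain ⟨C, hC, hnot⟩ := core m T R (p.1 ∩ p.2) hT hR
    (fun x => by rw [Set.mem_inter_iff, hpT, hpR]) hpinf
  refine ⟨C, hC, fun hhom => hnot (almost_mono ?_ hhom)⟩
  intro x hx
  exact (h2 x).2 ⟨p, hp, hx.1, hx.2⟩

end Pool.Agent.Y563.BC
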