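import Mathlib
import Pool.Agent.Results.MP_c357a0_lc.NoPiNCohesive

set_option autoImplicit false

/-! Infinite intersections of a `Π⁰_n` and a `Σ⁰_n` set are not almost homogeneous for some
computable partition of exponent `n`, `n ≥ 3`. -/

namespace Pool.Agent.Y563.BC

open Pool.Agent.Helper344.Coh1 Pool.Agent.Helper344.Coh2 Pool.Agent.Helper344.Coh3
open Pool.Agent.Results.MP_c357a0_lc.NoPiNCohesive

/-- the least `y < N` with `f y = true`, or `N` -/
def least (f : ℕ → Bool) (N : ℕ) : ℕ :=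
  Nat.rec 0 (fun k acc => bif decide (acc < k) then acc else (bif f k then k else k + 1)) N

lemma least_succ (f : ℕ → Bool) (N : ℕ) : least f (N + 1) =
    bif decide (least f N < N) then least f N else (bif f N then N else N + 1) := rfl

lemma least_none (f : ℕ → Bool) (N : ℕ) (h : ∀ y < N, f y = false) : least f N = N := by
  induction N with
  | zero => rfl
  | succ N ih =>
    have h1 := ih (fun y hy => h y (by omega))
    rw [least_succ, h1, h N (by omega)]
    simp

lemma least_spec (f : ℕ → Bool) (y : ℕ) (hy : f y = true) (hmin : ∀ y' < y, f y' = false) :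
    ∀ N, y < N → least f N = y := by
  intro N
  induction N with
  | zero => intro h; omega
  | succ N ih =>
    intro h
    rcases Nat.lt_succ_iff_lt_or_eq.1 h with h1 | rfl
    · rw [least_succ, ih h1]
      simp [h1]
    · rw [least_succ, least_none f y hmin, hy]
      simp

open Computable in
lemma comp_least {α : Type} [Primcodable α] (f : α → ℕ → Bool) (hf : Computable₂ f)
    (N : α → ℕ) (hN : Computable N) : Computable (fun a => least (f a) (N a)) := by
  unfold least
  refine Computable.nat_rec (f := N) (g := fun _ => 0)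
    (h := fun a q => bif decide (q.2 < q.1) then q.2 else (bif f a q.1 then q.1 else q.1 + 1))
    hN (const 0) ?_
  have h1 : Computable (fun p : α × ℕ × ℕ => decide (p.2.2 < p.2.1)) :=
    (Primrec.nat_lt.decide.to_comp).comp (snd.comp snd) (fst.comp snd)
  have h2 : Computable (fun p : α × ℕ × ℕ => f p.1 p.2.1) := hf.comp fst (fst.comp snd)
  exact Computable.cond h1 (snd.comp snd)
    (Computable.cond h2 (fst.comp snd) (Computable.succ.comp (fst.comp snd)))

/-- the alive data of the index `i = ⟨x, y⟩`: `y` is the least witness for `x`, and `⟨x, k⟩`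
satisfies `t` -/
def DD (t r : ℕ → Bool) (i k : ℕ) : Bool :=
  (r i && allBelow (fun y => !r (Nat.pair i.unpair.1 y)) i.unpair.2) &&
    t (Nat.pair i.unpair.1 k)

lemma DD_iff (t r : ℕ → Bool) (i k : ℕ) : DD t r i k = true ↔
    (r i = true ∧ (∀ y < i.unpair.2, r (Nat.pair i.unpair.1 y) = false)) ∧
      t (Nat.pair i.unpair.1 k) = true := by
  unfold DD
  rw [Bool.and_eq_true, Bool.and_eq_true, allBelow_iff]
  simp only [Bool.not_eq_true']

lemma DD_congr (t r t' r' : ℕ → Bool) (s : ℕ) (ht : ∀ z < s * s, t z = t' z)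
    (hr : ∀ z < s, r z = r' z) : ∀ i < s, ∀ k < s, DD t r i k = DD t' r' i k := by
  intro i hi k hk
  have hx : i.unpair.1 ≤ i := Nat.unpair_left_le i
  have h1 : t (Nat.pair i.unpair.1 k) = t' (Nat.pair i.unpair.1 k) := by
    apply ht
    have h4 := Nat.pair_lt_max_add_one_sq i.unpair.1 k
    have h5 : (max i.unpair.1 k + 1) ^ 2 ≤ s * s := by
      rw [sq]
      exact Nat.mul_le_mul (by omega) (by omega)
    omega
  have h2 : ∀ y < i.unpair.2, r (Nat.pair i.unpair.1 y) = r' (Nat.pair i.unpair.1 y) := by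
    intro y hy
    apply hr
    have h3 := Nat.pair_lt_pair_right i.unpair.1 hy
    rw [Nat.pair_unpair] at h3
    omega
  rw [Bool.eq_iff_iff, DD_iff, DD_iff, h1, hr i hi]
  constructor
  · rintro ⟨⟨h3, h4⟩, h5⟩
    exact ⟨⟨h3, fun y hy => by rw [← h2 y hy]; exact h4 y hy⟩, h5⟩
  · rintro ⟨⟨h3, h4⟩, h5⟩
    exact ⟨⟨h3, fun y hy => by rw [h2 y hy]; exact h4 y hy⟩, h5⟩

/-- the index of `x` -/
def idx (r : ℕ → Bool) (N x : ℕ) : ℕ := Nat.pair x (least (fun y => r (Nat.pair x y)) N)

/-- the colouring of lists -/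
def colN (gT gR : List ℕ → ℕ → Bool) (L : List ℕ) : Bool :=
  colT (DD (gT L.tail) (gR L.tail)) L.tail.headI (idx (gR L.tail) L.tail.headI L.headI)

open Computable in
lemma comp_colN (gT gR : List ℕ → ℕ → Bool) (hT : Computable₂ gT) (hR : Computable₂ gR) :
    Computable (colN gT gR) := by
  have htail : Computable (fun L : List ℕ => L.tail) := Primrec.list_tail.to_comp
  have hhead : Computable (fun L : List ℕ => L.headI) := Primrec.list_headI.to_comp
  have hth : Computable (fun L : List ℕ => L.tail.headI) := hhead.comp htail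
  -- the alive data
  have e1 : Computable (fun p : List ℕ × ℕ × ℕ => p.1.tail) := htail.comp fst
  have ei : Computable (fun p : List ℕ × ℕ × ℕ => p.2.1.unpair) :=
    Computable.unpair.comp (fst.comp snd)
  have e2 : Computable (fun p : List ℕ × ℕ × ℕ => gR p.1.tail p.2.1) :=
    hR.comp e1 (fst.comp snd)
  have e3 : Computable₂ (fun (p : List ℕ × ℕ × ℕ) (y : ℕ) =>
      !gR p.1.tail (Nat.pair p.2.1.unpair.1 y)) := by
    have h1 : Computable (fun q : (List ℕ × ℕ × ℕ) × ℕ => Nat.pair q.1.2.1.unpair.1 q.2) :=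
      (Primrec₂.natPair.to_comp).comp (fst.comp (ei.comp fst)) snd
    exact (Primrec.not.to_comp).comp (hR.comp (e1.comp fst) h1)
  have e4 : Computable (fun p : List ℕ × ℕ × ℕ =>
      allBelow (fun y => !gR p.1.tail (Nat.pair p.2.1.unpair.1 y)) p.2.1.unpair.2) :=
    comp_allBelow _ e3 _ (snd.comp ei)
  have e5 : Computable (fun p : List ℕ × ℕ × ℕ => gT p.1.tail (Nat.pair p.2.1.unpair.1 p.2.2)) :=
    hT.comp e1 ((Primrec₂.natPair.to_comp).comp (fst.comp ei) (snd.comp snd))
  have hD : Computable (fun p : List ℕ × ℕ × ℕ => DD (gT p.1.tail) (gR p.1.tail) p.2.1 p.2.2) := by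
    unfold DD
    exact (Primrec.and.to_comp).comp ((Primrec.and.to_comp).comp e2 e4) e5
  -- the index
  have f1 : Computable₂ (fun (L : List ℕ) (y : ℕ) => gR L.tail (Nat.pair L.headI y)) :=
    hR.comp (htail.comp fst) ((Primrec₂.natPair.to_comp).comp (hhead.comp fst) snd)
  have f2 : Computable (fun L : List ℕ =>
      least (fun y => gR L.tail (Nat.pair L.headI y)) L.tail.headI) := comp_least _ f1 _ hth
  have f3 : Computable (fun L : List ℕ => idx (gR L.tail) L.tail.headI L.headI) :=
    (Primrec₂.natPair.to_comp).comp hhead f2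
  exact comp_colT (fun (L : List ℕ) => DD (gT L.tail) (gR L.tail)) hD
    (fun L => L.tail.headI) hth _ f3

/-- A computable partition of exponent `n`. -/
def IsCompPartition (n : ℕ) (C : Set (Finset ℕ)) : Prop :=
  (∀ s ∈ C, s.card = n) ∧ ComputablePred fun l : List ℕ => l.Pairwise (· < ·) ∧ l.toFinset ∈ C

/-- the partition given by a colouring of lists -/
def partC (c : List ℕ → Bool) (n : ℕ) : Set (Finset ℕ) :=
  {s | s.card = n ∧ c (s.sort (· ≤ ·)) = true}

lemma mem_partC (c : List ℕ → Bool) (n : ℕ) (l : List ℕ) (hl : l.Pairwise (· < ·)) :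
    l.toFinset ∈ partC c n ↔ l.length = n ∧ c l = true := by
  have h1 : l.Nodup := hl.imp (fun h => ne_of_lt h)
  have h2 : l.toFinset.sort (· ≤ ·) = l :=
    (List.toFinset_sort (r := (· ≤ ·)) h1).2 (hl.imp (fun h => le_of_lt h))
  unfold partC
  rw [Set.mem_ofPred_eq, h2, List.toFinset_card_of_nodup h1]

lemma partC_comp (c : List ℕ → Bool) (hc : Computable c) (n : ℕ) :
    IsCompPartition n (partC c n) := by
  refine ⟨fun s hs => hs.1, ?_⟩
  have h1 : Computable (fun l : List ℕ => (chk l).1 && (decide (l.length = n) && c l)) := by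
    refine (Primrec.and.to_comp).comp (Primrec.to_comp (Primrec.fst.comp prim_chk))
      ((Primrec.and.to_comp).comp ?_ hc)
    exact Primrec.to_comp (Primrec.eq.comp Primrec.list_length (Primrec.const n)).decide
  refine ComputablePred.computable_iff.2 ⟨_, h1, ?_⟩
  funext l
  apply propext
  rw [Bool.and_eq_true, (chk_spec l).1, Bool.and_eq_true, decide_eq_true_eq]
  constructor
  · rintro ⟨h2, h3⟩
    exact ⟨h2, (mem_partC c n l h2).1 h3⟩
  · rintro ⟨h2, h3⟩
    exact ⟨h2, (mem_partC c n l h2).2 h3⟩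

/-- The core: the infinite set of the `x` with `∀ k, ⟨x, k⟩ ∈ T` and `∃ k, ⟨x, k⟩ ∈ R` is not
almost homogeneous for some computable partition of exponent `m + 3`, if `T` and `R` have
computable approximations with `m + 2` limits. -/
theorem core (m : ℕ) (T R A : Set ℕ) (hT : Approx (m + 2) T) (hR : Approx (m + 2) R)
    (hA : ∀ x, x ∈ A ↔ (∀ k, Nat.pair x k ∈ T) ∧ (∃ k, Nat.pair x k ∈ R)) (hinf : A.Infinite) :
    ∃ C, IsCompPartition (m + 3) C ∧ ¬ AlmostHomogeneous (m + 3) A C := by
  classical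
  obtain ⟨gT, hgT, hlimT⟩ := hT
  obtain ⟨gR, hgR, hlimR⟩ := hR
  refine ⟨partC (colN gT gR) (m + 3), partC_comp _ (comp_colN gT gR hgT hgR) _, ?_⟩
  rintro ⟨F, hF⟩
  set H : Set ℕ := A \ (F : Set ℕ) with hH
  have hHinf : H.Infinite := hinf.sdiff F.finite_toSet
  let t : ℕ → Bool := fun z => decide (z ∈ T)
  let r : ℕ → Bool := fun z => decide (z ∈ R)
  let D : ℕ → ℕ → Bool := DD t r
  let A' : Set ℕ := {i | ∀ s, i < s → alOf D s i = true}
  have hA' : ∀ i, i ∈ A' ↔ (i ∈ R ∧ ∀ y < i.unpair.2, Nat.pair i.unpair.1 y ∉ R) ∧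
      ∀ k, Nat.pair i.unpair.1 k ∈ T := by
    intro i
    constructor
    · intro h
      have h1 : ∀ k, DD t r i k = true := by
        intro k
        have h2 := h (max i k + 1) (by omega)
        rw [alOf_iff] at h2
        exact h2.2 k (by omega)
      have h3 := (DD_iff t r i 0).1 (h1 0)
      refine ⟨⟨by simpa [r] using h3.1.1, fun y hy => by simpa [r] using h3.1.2 y hy⟩, ?_⟩
      intro k
      have h4 := (DD_iff t r i k).1 (h1 k)
      simpa [t] using h4.2
    · rintro ⟨⟨h1, h2⟩, h3⟩ s hs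
      rw [alOf_iff]
      refine ⟨hs, fun k _ => ?_⟩
      change DD t r i k = true
      rw [DD_iff]
      exact ⟨⟨by simpa [r] using h1, fun y hy => by simpa [r] using h2 y hy⟩,
        by simpa [t] using h3 k⟩
  have hA'A : ∀ i ∈ A', i.unpair.1 ∈ A := by
    intro i hi
    obtain ⟨⟨h1, -⟩, h3⟩ := (hA' i).1 hi
    rw [hA]
    exact ⟨h3, i.unpair.2, by rw [Nat.pair_unpair]; exact h1⟩
  have hinj : ∀ i ∈ A', ∀ j ∈ A', i.unpair.1 = j.unpair.1 → i = j := by
    intro i hi j hj hij
    obtain ⟨⟨h1, h2⟩, -⟩ := (hA' i).1 hi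
    obtain ⟨⟨h3, h4⟩, -⟩ := (hA' j).1 hj
    have h5 : i.unpair.2 = j.unpair.2 := by
      rcases lt_trichotomy i.unpair.2 j.unpair.2 with h | h | h
      · exfalso
        apply h4 _ h
        rw [← hij, Nat.pair_unpair]
        exact h1
      · exact h
      · exfalso
        apply h2 _ h
        rw [hij, Nat.pair_unpair]
        exact h3
    rw [← Nat.pair_unpair i, ← Nat.pair_unpair j, hij, h5]
  have hsurj : ∀ x ∈ A, ∃ i ∈ A', i.unpair.1 = x := by
    intro x hx
    obtain ⟨h1, h2⟩ := (hA x).1 hx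
    refine ⟨Nat.pair x (Nat.find h2), ?_, by simp⟩
    rw [hA']
    simp only [Nat.unpair_pair]
    exact ⟨⟨Nat.find_spec h2, fun y hy => Nat.find_min h2 hy⟩, h1⟩
  have hA'inf : A'.Infinite := by
    intro hfin
    apply hinf
    refine (hfin.image (fun i => i.unpair.1)).subset ?_
    intro x hx
    obtain ⟨i, hi, hix⟩ := hsurj x hx
    exact ⟨i, hi, hix⟩
  -- indices whose first component lies in `F` are bounded
  obtain ⟨M, hM⟩ : ∃ M, ∀ i ∈ A', M < i → i.unpair.1 ∉ (F : Set ℕ) := by
    have hfin : {i | i ∈ A' ∧ i.unpair.1 ∈ (F : Set ℕ)}.Finite := by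
      apply Set.Finite.of_finite_image (f := fun i : ℕ => i.unpair.1)
      · refine F.finite_toSet.subset ?_
        rintro _ ⟨i, hi, rfl⟩
        exact hi.2
      · intro i hi j hj hij
        exact hinj i hi.1 j hj.1 hij
    obtain ⟨M, hM⟩ := hfin.bddAbove
    refine ⟨M, fun i hi hlt hmem => ?_⟩
    have := hM ⟨hi, hmem⟩
    omega
  obtain ⟨s, u, v, huv, hne, huA, hvA, hMu, hMv⟩ :=
    exists_pair (alOf D) (alOf_alive D) A' hA'inf (fun x => Iff.rfl) M
  have huH : u.unpair.1 ∈ H := ⟨hA'A u huA, hM u huA hMu⟩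
  have hvH : v.unpair.1 ∈ H := ⟨hA'A v hvA, hM v hvA hMv⟩
  set N : ℕ := s * s + s + u + v + 2 with hN
  have hL1 : IterLim (m + 2) (fun l => ∀ i < N, (gT l i = true ↔ i ∈ T)) :=
    IterLim.forall_lt (p := fun i l => (gT l i = true ↔ i ∈ T)) N hlimT
  have hL1' : IterLim (m + 2) (fun l => ∀ i < N, (gR l i = true ↔ i ∈ R)) :=
    IterLim.forall_lt (p := fun i l => (gR l i = true ↔ i ∈ R)) N hlimR
  have hL2 : IterLim (m + 2) (fun l => N ≤ l.headI) :=
    ⟨N, fun y hy => IterLim.of_forall (fun l => by simpa using hy)⟩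
  obtain ⟨l, hlen, hlp, hlH, ⟨hl1, hl1'⟩, hl2⟩ :=
    ((hL1.and hL1').and hL2).exists_list H hHinf (max u.unpair.1 v.unpair.1)
  have hgt : ∀ z < N, gT l z = t z := by
    intro z hz
    rw [Bool.eq_iff_iff, hl1 z hz]
    simp [t]
  have hgr : ∀ z < N, gR l z = r z := by
    intro z hz
    rw [Bool.eq_iff_iff, hl1' z hz]
    simp [r]
  have hDD : ∀ x < s, ∀ k < s, DD (gT l) (gR l) x k = D x k :=
    DD_congr _ _ _ _ s (fun z hz => hgt z (by omega)) (fun z hz => hgr z (by omega))
  have hrun : run (alOf (DD (gT l) (gR l))) s = run (alOf D) s :=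
    run_congr _ _ s (alOf_congr _ _ s hDD)
  have hcol := col_ne (alOf (DD (gT l) (gR l))) (alOf_alive _) s u v hne
    (by rw [hrun]; exact huv) l.headI (by omega)
  rw [← colT_eq, ← colT_eq] at hcol
  -- the index computed from `l` is right
  have hidx : ∀ w ∈ A', w ≤ u + v → idx (gR l) l.headI w.unpair.1 = w := by
    intro w hw hwle
    obtain ⟨⟨h1, h2⟩, -⟩ := (hA' w).1 hw
    have h5 : w.unpair.2 ≤ w := Nat.unpair_right_le w
    have h6 : ∀ y ≤ w.unpair.2, Nat.pair w.unpair.1 y ≤ w := by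
      intro y hy
      rcases Nat.lt_or_eq_of_le hy with h | h
      · have h7 := Nat.pair_lt_pair_right w.unpair.1 h
        rw [Nat.pair_unpair] at h7
        omega
      · rw [h, Nat.pair_unpair]
    unfold idx
    rw [least_spec (fun y => gR l (Nat.pair w.unpair.1 y)) w.unpair.2 ?_ ?_ l.headI (by omega),
      Nat.pair_unpair]
    · change gR l (Nat.pair w.unpair.1 w.unpair.2) = true
      rw [Nat.pair_unpair, hgr w (by omega)]
      simpa [r] using h1
    · intro y hy
      change gR l (Nat.pair w.unpair.1 y) = false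
      have h8 := h6 y hy.le
      rw [hgr _ (by omega)]
      simpa [r] using h2 y hy
  have hu : colN gT gR (u.unpair.1 :: l) = colT (DD (gT l) (gR l)) l.headI u := by
    change colT (DD (gT l) (gR l)) l.headI (idx (gR l) l.headI u.unpair.1) = _
    rw [hidx u huA (by omega)]
  have hv : colN gT gR (v.unpair.1 :: l) = colT (DD (gT l) (gR l)) l.headI v := by
    change colT (DD (gT l) (gR l)) l.headI (idx (gR l) l.headI v.unpair.1) = _
    rw [hidx v hvA (by omega)]
  rw [← hu, ← hv] at hcol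
  have hup : (u.unpair.1 :: l).Pairwise (· < ·) := by
    rw [List.pairwise_cons]
    exact ⟨fun z hz => by have := (hlH z hz).2; omega, hlp⟩
  have hvp : (v.unpair.1 :: l).Pairwise (· < ·) := by
    rw [List.pairwise_cons]
    exact ⟨fun z hz => by have := (hlH z hz).2; omega, hlp⟩
  have hsub : ∀ w, w ∈ H → (((w :: l).toFinset : Finset ℕ) : Set ℕ) ⊆ H := by
    intro w hw z hz
    simp only [List.coe_toFinset, List.mem_cons, Set.mem_ofPred_eq] at hz
    rcases hz with rfl | hz
    · exact hw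
    · exact (hlH z hz).1
  have hcard : ∀ w, (w :: l).Pairwise (· < ·) → (w :: l).toFinset.card = m + 3 := by
    intro w hw
    rw [List.toFinset_card_of_nodup (hw.imp (fun h => ne_of_lt h))]
    simp [hlen]
  have hmu := mem_partC (colN gT gR) (m + 3) (u.unpair.1 :: l) hup
  have hmv := mem_partC (colN gT gR) (m + 3) (v.unpair.1 :: l) hvp
  have hlu : (u.unpair.1 :: l).length = m + 3 := by simp [hlen]
  have hlv : (v.unpair.1 :: l).length = m + 3 := by simp [hlen]
  rcases hF with hF | hF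
  · have h7 := (hmu.1 (hF _ (hcard _ hup) (hsub _ huH))).2
    have h8 := (hmv.1 (hF _ (hcard _ hvp) (hsub _ hvH))).2
    exact hcol (by rw [h7, h8])
  · have h7 : ¬ colN gT gR (u.unpair.1 :: l) = true := fun h =>
      hF _ (hcard _ hup) (hsub _ huH) (hmu.2 ⟨hlu, h⟩)
    have h8 : ¬ colN gT gR (v.unpair.1 :: l) = true := fun h =>
      hF _ (hcard _ hvp) (hsub _ hvH) (hmv.2 ⟨hlv, h⟩)
    exact hcol (by rw [Bool.eq_false_iff.2 h7, Bool.eq_false_iff.2 h8])

end Pool.Agent.Y563.BC
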